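import Pool.Agent.Work.MP_46fa68_19.m10_19_9.Chk
import Pool.Agent.Work.MP_46fa68_31.m10_19_9.R
import Pool.Agent.Work.MP_46fa68_31.Cell
import Pool.Agent.Work.MP_46fa68_95.PsdB
import Pool.Agent.Work.MP_46fa68_74.Scale

/-! # MP_46fa68_co, full marked kernel m10_19_9: the gaps -/

set_option autoImplicit false

namespace Pool.JM.MK.m10_19_9

open Finset Pool.EG Pool.JM

theorem sc : ScIneq (18 + 1) (18 + 1 - (8 + 2)) (((519737056645679931079054349033711328817 : ℤ) : ℝ) / 2 ^ 128)
    (((160825678717856069176098945430757684282 : ℤ) : ℝ) / 2 ^ 128) (((-3698345919705097987139921158500278707769 : ℤ) : ℝ) / 2 ^ 128)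
    ((((-3554194683349545755785869460632824174949 : ℤ) : ℝ) + ((8108588689798814271733292934930754866247 : ℤ) : ℝ)) / 2 ^ 128 - (8 + 2).factorial * (1 / 10 ^ 15))
    ((((-3554194683349545755785869460632824174949 : ℤ) : ℝ)) / 2 ^ 128 - (8 + 2).factorial * (1 / 10 ^ 15)) := by
  have hc0 : 1048575 = RT.cd (range 20) := by
    have h := cd_range 20
    change 1048575 = cd (range 20)
    rw [h]
    norm_num
  obtain ⟨al, h1, h2, h3⟩ := RT.cellChk_sound (N := 18 + 1) (M := 20) (m := 8 + 2) (n := 18)
    (K := 31) (R := 20) (S := (2 : ℝ) ^ 128) (cs := cs) (by norm_num) (by norm_num)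
    (by norm_num) (by positivity) hL (by norm_num) (by norm_num) (by norm_num) (by norm_num) hc0
    (by rfl) (by rfl) (by norm_num [Nat.factorial]) (by norm_num [Nat.factorial])
    (fun k hk => hcs k (by omega)) hct hsc hcellC
  exact full_tables (n := 18) (j := 8) (M := 20) (L := 232792560) (W := 39) (R := 20) (N := 297)
    (T := 2 ^ 50) (S := (2 : ℝ) ^ 128) (by norm_num) (by norm_num) hL (by norm_num) (by norm_num)
    (by norm_num) (by positivity) tB tD cs hcs hN hGz hG hsB hsD hr0 (by norm_num) hTB2 hTD hd hE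
    (chP_sound (by positivity) (by norm_num) (hcs 18 (by norm_num)) hpsd) al h1 h2 h3
    (RT.rowChk_sound (N := 18 + 1) (K := 31) (R := 20) (cs := cs 10) (by norm_num) (by norm_num)
      (by positivity) hL (by norm_num) (by norm_num) (by norm_num) (by norm_num) hc0 (by rfl) hsc1
      hrowC)
    (RT.bothChk_sound (N := 18 + 1) (K := 31) (R := 20) (m := 8 + 2) (by norm_num) (by norm_num)
      (by positivity) hL (by norm_num) (by norm_num) (by norm_num) (by norm_num) hc0 (by rfl) hsc
      hbothC)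

theorem gap_1_73o250_873o1000 : Gap 19 9 1 (73 / 250) (873 / 1000) := by
  have h : ExclS (18 + 1) (18 + 1 - (8 + 2)) 1 (73 / 250) (873 / 1000) := by
    refine excl_of_scaled (by norm_num) sc (by norm_num) (by norm_num) ?_ ?_ ?_ ?_ ?_ ?_ ?_ ?_ <;>
      norm_num [Nat.factorial]
  exact h.gap

end Pool.JM.MK.m10_19_9
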